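import Mathlib

/-! Commutative subgroups of free groups are cyclic; nontrivial normal subgroups of noncommutative
free groups are noncommutative. -/

namespace Q27.FreeFacts

open FreeGroup (of lift)

universe u

variable {X : Type u}

theorem of_noncomm {x y : X} (h : x ≠ y) : of x * of y ≠ of y * of x := by
  classical
  intro h1
  let f : X → Equiv.Perm (Fin 3) := fun z => if z = x then Equiv.swap 0 1 else Equiv.swap 1 2
  have h2 := congrArg (lift f) h1
  simp only [map_mul, FreeGroup.lift_apply_of, f, if_true, if_neg h.symm] at h2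
  revert h2
  decide

theorem comm_cyclic (H : Subgroup (FreeGroup X)) (hH : ∀ a ∈ H, ∀ b ∈ H, a * b = b * a) :
    ∃ k ∈ H, ∀ h ∈ H, ∃ n : ℤ, h = k ^ n := by
  classical
  let e := IsFreeGroup.toFreeGroup H
  have hcomm : ∀ a b : FreeGroup (IsFreeGroup.Generators H), a * b = b * a := by
    intro a b
    have h1 : e.symm a * e.symm b = e.symm b * e.symm a :=
      Subtype.ext (hH _ (e.symm a).2 _ (e.symm b).2)
    have h2 := congrArg e h1
    simpa using h2
  have hsub : ∀ a b : IsFreeGroup.Generators H, a = b := by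
    intro a b
    by_contra hne
    exact of_noncomm hne (hcomm _ _)
  by_cases hne : Nonempty (IsFreeGroup.Generators H)
  · obtain ⟨y⟩ := hne
    refine ⟨e.symm (of y), (e.symm (of y)).2, ?_⟩
    have key : ∀ w : FreeGroup (IsFreeGroup.Generators H), ∃ n : ℤ, w = of y ^ n := by
      intro w
      induction w using FreeGroup.induction_on with
      | C1 => exact ⟨0, by simp⟩
      | of z => exact ⟨1, by rw [hsub z y]; simp⟩
      | inv_of z _ => exact ⟨-1, by rw [hsub z y]; simp⟩
      | mul a b ha hb =>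
        obtain ⟨m, rfl⟩ := ha
        obtain ⟨n, rfl⟩ := hb
        exact ⟨m + n, by rw [zpow_add]⟩
    intro h hh
    obtain ⟨n, hn⟩ := key (e ⟨h, hh⟩)
    refine ⟨n, ?_⟩
    have h1 : (⟨h, hh⟩ : H) = e.symm (of y) ^ n := by
      rw [← map_zpow, ← hn, MulEquiv.symm_apply_apply]
    have h2 := congrArg (Subtype.val) h1
    simpa using h2
  · refine ⟨1, one_mem _, ?_⟩
    have key : ∀ w : FreeGroup (IsFreeGroup.Generators H), w = 1 := by
      intro w
      induction w using FreeGroup.induction_on with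
      | C1 => rfl
      | of z => exact absurd ⟨z⟩ hne
      | inv_of z _ => exact absurd ⟨z⟩ hne
      | mul a b ha hb => rw [ha, hb, one_mul]
    intro h hh
    refine ⟨0, ?_⟩
    have h1 := key (e ⟨h, hh⟩)
    rw [MulEquiv.map_eq_one_iff] at h1
    have h2 := congrArg (Subtype.val) h1
    simpa using h2

theorem comm_roots (g h : FreeGroup X) (hgh : g * h = h * g) :
    ∃ (k : FreeGroup X) (m n : ℤ), g = k ^ m ∧ h = k ^ n := by
  let H : Subgroup (FreeGroup X) := Subgroup.closure {g, h}
  have hH : ∀ a ∈ H, ∀ b ∈ H, a * b = b * a := by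
    have h1 : ∀ a ∈ ({g, h} : Set (FreeGroup X)), ∀ b ∈ ({g, h} : Set (FreeGroup X)),
        a * b = b * a := by
      intro a ha b hb
      simp only [Set.mem_insert_iff, Set.mem_singleton_iff] at ha hb
      rcases ha with rfl | rfl <;> rcases hb with rfl | rfl
      · rfl
      · exact hgh
      · exact hgh.symm
      · rfl
    intro a ha b hb
    have := (Subgroup.isMulCommutative_closure h1).is_comm.comm ⟨a, ha⟩ ⟨b, hb⟩
    exact congrArg Subtype.val this
  obtain ⟨k, -, hk⟩ := comm_cyclic H hH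
  obtain ⟨m, hm⟩ := hk g (Subgroup.subset_closure (by simp))
  obtain ⟨n, hn⟩ := hk h (Subgroup.subset_closure (by simp))
  exact ⟨k, m, n, hm, hn⟩

/-- exponent sum of a generator -/
noncomputable def expo (x : X) : FreeGroup X →* Multiplicative ℤ := by
  classical
  exact lift fun y => Multiplicative.ofAdd (if y = x then 1 else 0)

theorem expo_self (x : X) : expo x (of x) = Multiplicative.ofAdd 1 := by
  classical
  simp [expo]

theorem expo_other {x y : X} (h : y ≠ x) : expo x (of y) = 1 := by
  classical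
  simp [expo, h]

theorem comm_of (x : X) (g : FreeGroup X) (h : of x * g = g * of x) : ∃ n : ℤ, g = of x ^ n := by
  obtain ⟨k, m, n, h1, rfl⟩ := comm_roots _ _ h
  have h2 := congrArg (fun z => Multiplicative.toAdd (expo x z)) h1
  simp only [expo_self, map_zpow, toAdd_ofAdd, toAdd_zpow, smul_eq_mul] at h2
  have h3 : m = 1 ∨ m = -1 := Int.eq_one_or_neg_one_of_mul_eq_one h2.symm
  rcases h3 with rfl | rfl
  · exact ⟨n, by rw [h1, zpow_one]⟩
  · refine ⟨-n, ?_⟩
    rw [h1, zpow_neg_one, inv_zpow, zpow_neg, inv_inv]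

theorem center_trivial {x y : X} (hxy : x ≠ y) (g : FreeGroup X) (h1 : of x * g = g * of x)
    (h2 : of y * g = g * of y) : g = 1 := by
  obtain ⟨m, hm⟩ := comm_of x g h1
  obtain ⟨n, hn⟩ := comm_of y g h2
  have h3 : expo x g = 1 := by
    rw [hn, map_zpow, expo_other hxy.symm, one_zpow]
  have h4 := congrArg Multiplicative.toAdd h3
  rw [hm, map_zpow, expo_self, toAdd_zpow, toAdd_ofAdd, toAdd_one, smul_eq_mul, mul_one] at h4
  rw [hm, h4, zpow_zero]

theorem normal_noncomm {x y : X} (hxy : x ≠ y) (R : Subgroup (FreeGroup X)) [hR : R.Normal]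
    (hne : R ≠ ⊥) : ∃ r₁ ∈ R, ∃ r₂ ∈ R, r₁ * r₂ ≠ r₂ * r₁ := by
  by_contra hcon
  push Not at hcon
  obtain ⟨k, hk, hkR⟩ := comm_cyclic R hcon
  have hk1 : k ≠ 1 := by
    rintro rfl
    apply hne
    rw [Subgroup.eq_bot_iff_forall]
    intro r hr
    obtain ⟨n, rfl⟩ := hkR r hr
    simp
  have hcen : ∀ f : FreeGroup X, f * k = k * f := by
    intro f
    obtain ⟨m, hm⟩ := hkR _ (hR.conj_mem k hk f)
    obtain ⟨n, hn⟩ := hkR _ (hR.conj_mem k hk f⁻¹)
    have h1 : k ^ (m * n) = k := by
      rw [zpow_mul, ← hm, conj_zpow, ← hn]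
      group
    have h2 : k ^ (m * n - 1) = 1 := by
      rw [zpow_sub, h1, zpow_one, mul_inv_cancel]
    have h3 : m * n - 1 = 0 := by
      by_contra h4
      have h5 : k ^ (m * n - 1) = (1 : FreeGroup X) ^ (m * n - 1) := by rw [h2, one_zpow]
      exact hk1 (zpow_left_injective h4 h5)
    have h3' : m * n = 1 := by omega
    have h4 : m = 1 ∨ m = -1 := Int.eq_one_or_neg_one_of_mul_eq_one h3'
    have h5 : f * (f * k * f⁻¹) * f⁻¹ = k := by
      rw [hm]
      have : f * k ^ m * f⁻¹ = (f * k * f⁻¹) ^ m := (conj_zpow).symm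
      rw [this, hm, ← zpow_mul]
      rcases h4 with rfl | rfl <;> simp
    have h6 : (k⁻¹ * f * k) ^ 2 = f ^ 2 := by
      have h7 : f * f * k = k * (f * f) := by
        have : f * (f * k * f⁻¹) * f⁻¹ * (f * f) = k * (f * f) := by rw [h5]
        rw [← this]
        group
      rw [sq, sq]
      have : k⁻¹ * f * k * (k⁻¹ * f * k) = k⁻¹ * (f * f * k) := by group
      rw [this, h7]
      group
    have h8 : k⁻¹ * f * k = f := pow_left_injective (by norm_num) h6
    calc f * k = k * (k⁻¹ * f * k) := by group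
      _ = k * f := by rw [h8]
  exact hk1 (center_trivial hxy k (hcen _) (hcen _))

end Q27.FreeFacts
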