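import Mathlib

/-! The chain of a path in the graph of an action of a free group. -/

namespace Q27.RelComm

open FreeGroup (of lift)

variable {X : Type*} {V : Type*} [MulAction (FreeGroup X) V]

/-- The permutation of `V × ((V × X) →₀ ℤ)` attached to a generator. -/
noncomputable def stepPerm (x : X) : Equiv.Perm (V × ((V × X) →₀ ℤ)) where
  toFun p := (of x • p.1, p.2 + Finsupp.single (p.1, x) 1)
  invFun p := ((of x)⁻¹ • p.1, p.2 - Finsupp.single ((of x)⁻¹ • p.1, x) 1)
  left_inv p := by simp
  right_inv p := by simp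

/-- The permutation attached to an element. -/
noncomputable def Phi : FreeGroup X →* Equiv.Perm (V × ((V × X) →₀ ℤ)) := lift stepPerm

/-- The chain of the path that starts at `v` and is labelled by `g`. -/
noncomputable def c (g : FreeGroup X) (v : V) : (V × X) →₀ ℤ := (Phi g (v, 0)).2

theorem Phi_of (x : X) (p : V × ((V × X) →₀ ℤ)) :
    Phi (of x) p = (of x • p.1, p.2 + Finsupp.single (p.1, x) 1) := by
  simp [Phi, stepPerm]

theorem Phi_inv_of (x : X) (p : V × ((V × X) →₀ ℤ)) :
    Phi (of x)⁻¹ p = ((of x)⁻¹ • p.1, p.2 - Finsupp.single ((of x)⁻¹ • p.1, x) 1) := by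
  rw [map_inv, Equiv.Perm.inv_eq_iff_eq, Phi_of]
  simp

theorem Phi_apply (g : FreeGroup X) : ∀ (v : V) (a : (V × X) →₀ ℤ),
    Phi g (v, a) = (g • v, a + c g v) := by
  induction g using FreeGroup.induction_on with
  | C1 => intro v a; simp [c]
  | of x => intro v a; simp only [c, Phi_of, zero_add]
  | inv_of x _ =>
    intro v a
    simp only [c, Phi_inv_of]
    simp [sub_eq_add_neg]
  | mul g h hg hh =>
    intro v a
    have h1 : ∀ b, Phi (g * h) (v, b) = (g • h • v, b + c h v + c g (h • v)) := by
      intro b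
      rw [map_mul, Equiv.Perm.mul_apply, hh, hg]
    rw [h1]
    have h2 : c (g * h) v = c h v + c g (h • v) := by
      have := h1 0
      rw [zero_add] at this
      rw [c, this]
    rw [h2, mul_smul, add_assoc]

theorem c_mul (g h : FreeGroup X) (v : V) : c (g * h) v = c h v + c g (h • v) := by
  rw [c, map_mul, Equiv.Perm.mul_apply, Phi_apply h, Phi_apply g]
  simp

@[simp] theorem c_one (v : V) : c (1 : FreeGroup X) v = 0 := by simp [c]

@[simp] theorem c_of (x : X) (v : V) : c (of x) v = Finsupp.single (v, x) 1 := by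
  rw [c, Phi_of]
  simp

theorem c_inv (g : FreeGroup X) (v : V) : c g⁻¹ v = - c g (g⁻¹ • v) := by
  have h := c_mul g g⁻¹ v
  rw [mul_inv_cancel, c_one] at h
  exact eq_neg_of_add_eq_zero_left h.symm

/-- abelianization -/
noncomputable def deg : FreeGroup X →* Multiplicative (X →₀ ℤ) :=
  lift fun x => Multiplicative.ofAdd (Finsupp.single x 1)

theorem exists_factor {B : Type*} [AddCommGroup B] (φ : FreeGroup X →* Multiplicative B) :
    ∃ L : (X →₀ ℤ) →+ B, ∀ g, Multiplicative.toAdd (φ g) = L (Multiplicative.toAdd (deg g)) := by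
  let L : (X →₀ ℤ) →+ B :=
    Finsupp.liftAddHom fun x => zmultiplesHom B (Multiplicative.toAdd (φ (of x)))
  have h : φ = (AddMonoidHom.toMultiplicative L).comp deg := by
    ext x
    simp [deg, L]
  refine ⟨L, fun g => ?_⟩
  rw [h]
  rfl

theorem eq_one_of_deg {B : Type*} [AddCommGroup B] (φ : FreeGroup X →* Multiplicative B)
    (g : FreeGroup X) (hg : deg g = 1) : φ g = 1 := by
  obtain ⟨L, hL⟩ := exists_factor φ
  have := hL g
  rw [hg, toAdd_one, map_zero] at this
  exact this

/-- the element given by a letter -/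
def lett (l : X × Bool) : FreeGroup X := FreeGroup.mk [l]

theorem mk_cons (l : X × Bool) (L : List (X × Bool)) :
    FreeGroup.mk (l :: L) = lett l * FreeGroup.mk L := rfl

theorem mk_append (L M : List (X × Bool)) :
    FreeGroup.mk (L ++ M) = FreeGroup.mk L * FreeGroup.mk M := by
  rw [FreeGroup.mul_mk]

theorem lett_true (x : X) : lett (x, true) = of x := rfl

theorem lett_false (x : X) : lett (x, false) = (of x)⁻¹ := rfl

/-- which letters contribute to a coefficient of a chain -/
theorem supp_c (L : List (X × Bool)) (v : V) (u : V) (x : X)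
    (h : c (FreeGroup.mk L) v (u, x) ≠ 0) :
    ∃ (L₁ : List (X × Bool)) (l : X × Bool) (L₂ : List (X × Bool)), L = L₁ ++ l :: L₂ ∧
      ((l = (x, true) ∧ FreeGroup.mk L₂ • v = u) ∨
        (l = (x, false) ∧ FreeGroup.mk (l :: L₂) • v = u)) := by
  classical
  induction L with
  | nil =>
    exfalso
    apply h
    rw [← FreeGroup.one_eq_mk, c_one]
    rfl
  | cons l L ih =>
    by_cases h1 : c (FreeGroup.mk L) v (u, x) = 0
    · refine ⟨[], l, L, rfl, ?_⟩
      rw [mk_cons, c_mul, Finsupp.add_apply, h1, zero_add] at h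
      obtain ⟨y, s⟩ := l
      cases s
      · right
        rw [lett_false, c_inv, c_of, Finsupp.neg_apply, neg_ne_zero, Finsupp.single_apply] at h
        have h2 : ((of y)⁻¹ • (FreeGroup.mk L • v), y) = (u, x) := by
          by_contra hne
          rw [if_neg hne] at h
          exact h rfl
        rw [Prod.mk.injEq] at h2
        refine ⟨by rw [h2.2], ?_⟩
        rw [mk_cons, mul_smul, lett_false]
        exact h2.1
      · left
        rw [lett_true, c_of, Finsupp.single_apply] at h
        have h2 : (FreeGroup.mk L • v, y) = (u, x) := by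
          by_contra hne
          rw [if_neg hne] at h
          exact h rfl
        rw [Prod.mk.injEq] at h2
        exact ⟨by rw [h2.2], h2.1⟩
    · obtain ⟨L₁, l', L₂, hL, h2⟩ := ih h1
      exact ⟨l :: L₁, l', L₂, by rw [hL, List.cons_append], h2⟩

/-- only finitely many starting points give a chain that involves a given edge -/
theorem finite_starts (g : FreeGroup X) (u : V) (x : X) : {v : V | c g v (u, x) ≠ 0}.Finite := by
  classical
  obtain ⟨L, rfl⟩ : ∃ L, g = FreeGroup.mk L := ⟨g.toWord, FreeGroup.mk_toWord.symm⟩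
  have h : {v : V | c (FreeGroup.mk L) v (u, x) ≠ 0} ⊆
      ⋃ M ∈ {M | M ∈ L.tails}, {(FreeGroup.mk M)⁻¹ • u} := by
    intro v hv
    obtain ⟨L₁, l, L₂, hL, h1⟩ := supp_c L v u x hv
    simp only [Set.mem_iUnion]
    rcases h1 with ⟨_, h2⟩ | ⟨_, h2⟩
    · refine ⟨L₂, ?_, ?_⟩
      · change L₂ ∈ L.tails
        rw [List.mem_tails]
        exact ⟨L₁ ++ [l], by rw [hL]; simp⟩
      · rw [Set.mem_singleton_iff, ← h2, inv_smul_smul]
    · refine ⟨l :: L₂, ?_, ?_⟩
      · change l :: L₂ ∈ L.tails
        rw [List.mem_tails]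
        exact ⟨L₁, by rw [hL]⟩
      · rw [Set.mem_singleton_iff, ← h2, inv_smul_smul]
  refine Set.Finite.subset ?_ h
  apply Set.Finite.biUnion
  · exact (L.tails.toFinset.finite_toSet).subset fun M hM => by simpa using hM
  · intro M _
    exact Set.finite_singleton _

/-- a reduced closed path without proper closed subpaths has a nonzero chain -/
theorem c_ne_zero_of_min (B : List (X × Bool)) (hB : FreeGroup.IsReduced B) (hne : B ≠ []) (u : V)
    (hclosed : FreeGroup.mk B • u = u)
    (hmin : ∀ B₁ B₂ B₃ : List (X × Bool), B = B₁ ++ B₂ ++ B₃ → B₂ ≠ [] →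
      FreeGroup.mk B₂ • FreeGroup.mk B₃ • u = FreeGroup.mk B₃ • u → B₁ = [] ∧ B₃ = []) :
    c (FreeGroup.mk B) u ≠ 0 := by
  classical
  obtain ⟨l, B', rfl⟩ := List.exists_cons_of_ne_nil hne
  intro h0
  obtain ⟨x, s⟩ := l
  cases s
  · -- the last letter is an inverse generator
    have h1 : (of x)⁻¹ • FreeGroup.mk B' • u = u := by
      rw [mk_cons, mul_smul, lett_false] at hclosed
      exact hclosed
    have h2 : c (FreeGroup.mk B') u (u, x) ≠ 0 := by
      rw [mk_cons, c_mul, lett_false, c_inv, c_of, h1] at h0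
      have := DFunLike.congr_fun h0 (u, x)
      rw [Finsupp.add_apply, Finsupp.neg_apply, Finsupp.single_eq_same, Finsupp.coe_zero,
        Pi.zero_apply] at this
      omega
    obtain ⟨B₁, l, B₂, hB', h3⟩ := supp_c B' u u x h2
    rcases h3 with ⟨rfl, h3⟩ | ⟨rfl, h3⟩
    · by_cases hB₂ : B₂ = []
      · subst hB₂
        by_cases hB₁ : B₁ = []
        · subst hB₁
          rw [hB'] at hB
          simp at hB
        · have h4 : FreeGroup.mk B₁ • FreeGroup.mk [(x, true)] • u =
              FreeGroup.mk [(x, true)] • u := by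
            have h5 : FreeGroup.mk B' • u = of x • u := by
              rw [inv_smul_eq_iff] at h1
              exact h1
            rw [hB', mk_append, mul_smul] at h5
            exact h5
          have := hmin [(x, false)] B₁ [(x, true)] (by rw [hB']; simp) hB₁ h4
          simp at this
      · have := hmin ((x, false) :: B₁ ++ [(x, true)]) B₂ [] (by rw [hB']; simp) hB₂
          (by rw [← FreeGroup.one_eq_mk, one_smul]; exact h3)
        simp at this
    · have := hmin ((x, false) :: B₁) ((x, false) :: B₂) [] (by rw [hB']; simp) (by simp)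
        (by rw [← FreeGroup.one_eq_mk, one_smul]; exact h3)
      simp at this
  · -- the last letter is a generator
    set u₁ := FreeGroup.mk B' • u with hu₁
    have h2 : c (FreeGroup.mk B') u (u₁, x) ≠ 0 := by
      rw [mk_cons, c_mul, lett_true, c_of, ← hu₁] at h0
      have := DFunLike.congr_fun h0 (u₁, x)
      rw [Finsupp.add_apply, Finsupp.single_eq_same, Finsupp.coe_zero, Pi.zero_apply] at this
      omega
    obtain ⟨B₁, l, B₂, hB', h3⟩ := supp_c B' u u₁ x h2
    rcases h3 with ⟨rfl, h3⟩ | ⟨rfl, h3⟩
    · have h4 : FreeGroup.mk (B₁ ++ [(x, true)]) • FreeGroup.mk B₂ • u =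
          FreeGroup.mk B₂ • u := by
        have h5 : FreeGroup.mk (B₁ ++ [(x, true)]) • FreeGroup.mk B₂ • u =
            FreeGroup.mk B' • u := by
          rw [← mul_smul, ← mk_append, hB']
          simp
        rw [h5, h3]
      have := hmin [(x, true)] (B₁ ++ [(x, true)]) B₂ (by rw [hB']; simp) (by simp) h4
      simp at this
    · by_cases hB₁ : B₁ = []
      · subst hB₁
        rw [hB'] at hB
        simp at hB
      · have h4 : FreeGroup.mk B₁ • FreeGroup.mk ((x, false) :: B₂) • u =
            FreeGroup.mk ((x, false) :: B₂) • u := by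
          have h5 : FreeGroup.mk B₁ • FreeGroup.mk ((x, false) :: B₂) • u =
              FreeGroup.mk B' • u := by
            rw [← mul_smul, ← mk_append, hB']
          rw [h5, h3]
        have := hmin [(x, true)] B₁ ((x, false) :: B₂) (by rw [hB']; simp) hB₁ h4
        simp at this

end Q27.RelComm
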