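import Pool.Agent.Q27.RelComm.Chain

/-! If closed paths of degree zero have zero chain and some nontrivial element acts trivially, the
graph has only one vertex. -/

namespace Q27.RelComm

open FreeGroup (of lift)

variable {X : Type*} {V : Type*} [MulAction (FreeGroup X) V]

theorem c_eq_of_closed
    (hZ : ∀ (g : FreeGroup X) (v : V), g • v = v → deg g = 1 → c g v = 0)
    (htrans : ∀ u v : V, ∃ g : FreeGroup X, g • u = v) (w : FreeGroup X) (p q : V)
    (hp : w • p = p) (hq : w • q = q) : c w p = c w q := by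
  obtain ⟨g, rfl⟩ := htrans p q
  have hw' : w⁻¹ • g • p = g • p := by rw [inv_smul_eq_iff, hq]
  have h1 : (g⁻¹ * (w⁻¹ * (g * w))) • p = p := by
    rw [mul_smul, mul_smul, mul_smul, hp, hw', inv_smul_smul]
  have h2 : deg (g⁻¹ * (w⁻¹ * (g * w))) = 1 := by
    simp only [map_mul, map_inv]
    rw [mul_comm (deg g) (deg w), inv_mul_cancel_left, inv_mul_cancel]
  have h3 := hZ _ _ h1 h2
  simp only [c_mul, mul_smul, hp, hw', c_inv, inv_smul_smul] at h3
  have h4 : c w p - c w (g • p) = 0 := by
    rw [← h3]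
    abel
  exact sub_eq_zero.1 h4

theorem c_pow (x : X) (n : ℕ) (v : V) :
    c (of x ^ n) v = ∑ i ∈ Finset.range n, Finsupp.single (of x ^ i • v, x) 1 := by
  induction n with
  | zero => simp
  | succ n ih => rw [pow_succ', c_mul, ih, c_of, Finset.sum_range_succ]

theorem c_pow_ge (x : X) (n : ℕ) (hn : 0 < n) (v : V) : 1 ≤ c (of x ^ n) v (v, x) := by
  classical
  rw [c_pow, Finset.sum_apply']
  have h1 : ∀ i ∈ Finset.range n, (0 : ℤ) ≤ (Finsupp.single (of x ^ i • v, x) (1 : ℤ)) (v, x) := by
    intro i _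
    rw [Finsupp.single_apply]
    split <;> norm_num
  have h2 := Finset.single_le_sum h1 (Finset.mem_range.2 hn)
  simpa using h2

theorem c_pow_other (x y : X) (hxy : x ≠ y) (n : ℕ) (v u : V) : c (of y ^ n) v (u, x) = 0 := by
  classical
  rw [c_pow, Finset.sum_apply']
  apply Finset.sum_eq_zero
  intro i _
  rw [Finsupp.single_apply, if_neg]
  intro h
  exact hxy (congrArg Prod.snd h).symm

theorem c_pow_fix (s : FreeGroup X) (v : V) (hs : s • v = v) (n : ℕ) : c (s ^ n) v = n • c s v := by
  induction n with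
  | zero => simp
  | succ n ih => rw [pow_succ, c_mul, hs, ih, succ_nsmul, add_comm]

theorem finite_of_trivial
    (hZ : ∀ (g : FreeGroup X) (v : V), g • v = v → deg g = 1 → c g v = 0)
    (htrans : ∀ u v : V, ∃ g : FreeGroup X, g • u = v) (t : FreeGroup X) (ht : t ≠ 1)
    (htriv : ∀ v : V, t • v = v) : Finite V := by
  classical
  -- the closed points of a given element are finite in number when the chain is nonzero
  have hA : ∀ w : FreeGroup X, {p : V | w • p = p ∧ c w p ≠ 0}.Finite := by
    intro w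
    by_cases hne : {p : V | w • p = p ∧ c w p ≠ 0}.Nonempty
    · obtain ⟨p, hp, hp0⟩ := hne
      obtain ⟨⟨u, x⟩, hux⟩ := Finsupp.ne_iff.1 hp0
      refine (finite_starts w u x).subset ?_
      rintro q ⟨hq, -⟩
      rw [Set.mem_ofPred_eq, ← c_eq_of_closed hZ htrans w p q hp hq]
      exact hux
    · rw [Set.not_nonempty_iff_eq_empty.1 hne]
      exact Set.finite_empty
  obtain ⟨L, hL, rfl⟩ : ∃ L, FreeGroup.IsReduced L ∧ t = FreeGroup.mk L :=
    ⟨t.toWord, FreeGroup.isReduced_toWord, FreeGroup.mk_toWord.symm⟩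
  have hL0 : L ≠ [] := by
    rintro rfl
    exact ht FreeGroup.one_eq_mk.symm
  have hcover : (Set.univ : Set V) ⊆ ⋃ B ∈ {B | B ∈ L.sublists}, ⋃ C ∈ {C | C ∈ L.sublists},
      (fun p : V => (FreeGroup.mk C)⁻¹ • p) '' {p : V | FreeGroup.mk B • p = p ∧
        c (FreeGroup.mk B) p ≠ 0} := by
    intro v _
    have hex : ∃ n, ∃ A B C : List (X × Bool), L = A ++ B ++ C ∧ B ≠ [] ∧ B.length = n ∧
        FreeGroup.mk B • FreeGroup.mk C • v = FreeGroup.mk C • v := by
      refine ⟨L.length, [], L, [], by simp, hL0, rfl, ?_⟩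
      rw [← FreeGroup.one_eq_mk, one_smul]
      exact htriv v
    obtain ⟨A, B, C, hABC, hB0, hBlen, hclosed⟩ := Nat.find_spec hex
    have hBred : FreeGroup.IsReduced B := by
      rw [hABC] at hL
      exact (List.isChain_append.1 (List.isChain_append.1 hL).1).2.1
    have hne := c_ne_zero_of_min B hBred hB0 (FreeGroup.mk C • v) hclosed (by
      intro B₁ B₂ B₃ hB hB₂ hcl
      by_contra hcon
      have hlt : B₂.length < Nat.find hex := by
        rw [← hBlen, hB]
        simp only [List.length_append]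
        by_contra hge
        apply hcon
        constructor
        · apply List.length_eq_zero_iff.1
          omega
        · apply List.length_eq_zero_iff.1
          omega
      apply Nat.find_min hex hlt
      refine ⟨A ++ B₁, B₂, B₃ ++ C, by rw [hABC, hB]; simp, hB₂, rfl, ?_⟩
      rw [mk_append, mul_smul]
      exact hcl)
    simp only [Set.mem_iUnion]
    refine ⟨B, ?_, C, ?_, FreeGroup.mk C • v, ⟨hclosed, hne⟩, inv_smul_smul _ _⟩
    · change B ∈ L.sublists
      rw [List.mem_sublists, hABC]
      exact (List.sublist_append_right A B).trans (List.sublist_append_left (A ++ B) C)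
    · change C ∈ L.sublists
      rw [List.mem_sublists, hABC]
      exact List.sublist_append_right (A ++ B) C
  have hsub : {B | B ∈ L.sublists}.Finite :=
    (L.sublists.toFinset.finite_toSet).subset fun M hM => by simpa using hM
  have hfin : (Set.univ : Set V).Finite := by
    refine Set.Finite.subset ?_ hcover
    apply Set.Finite.biUnion hsub
    intro B _
    apply Set.Finite.biUnion hsub
    intro C _
    exact (hA _).image _
  exact Set.finite_univ_iff.1 hfin

theorem collapse
    (hZ : ∀ (g : FreeGroup X) (v : V), g • v = v → deg g = 1 → c g v = 0)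
    (htrans : ∀ u v : V, ∃ g : FreeGroup X, g • u = v) (t : FreeGroup X) (ht : t ≠ 1)
    (htriv : ∀ v : V, t • v = v) (x y : X) (hxy : x ≠ y) (u v : V) : u = v := by
  classical
  have := finite_of_trivial hZ htrans t ht htriv
  let _ : Fintype V := Fintype.ofFinite V
  set M := Fintype.card (Equiv.Perm V) with hM
  have hM0 : 0 < M := Fintype.card_pos
  have hfix : ∀ (g : FreeGroup X) (v : V), g ^ M • v = v := by
    intro g v
    have h1 : (MulAction.toPermHom (FreeGroup X) V g) ^ M = 1 := pow_card_eq_one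
    rw [← map_pow] at h1
    exact DFunLike.congr_fun h1 v
  have hz : ∀ (z : X) (p q : V), c (of z ^ M) p = c (of z ^ M) q := fun z p q =>
    c_eq_of_closed hZ htrans _ p q (hfix _ _) (hfix _ _)
  have hytrans : ∀ p q : V, ∃ j : ℕ, of y ^ j • p = q := by
    intro p q
    have h1 := c_pow_ge y M hM0 q
    rw [hz y q p, c_pow, Finset.sum_apply'] at h1
    have h2 : ∑ i ∈ Finset.range M, (Finsupp.single (of y ^ i • p, y) (1 : ℤ)) (q, y) ≠ 0 := by
      omega
    obtain ⟨i, _, hi⟩ := Finset.exists_ne_zero_of_sum_ne_zero h2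
    refine ⟨i, ?_⟩
    rw [Finsupp.single_apply] at hi
    by_contra hne
    rw [if_neg] at hi
    · exact hi rfl
    · intro h
      exact hne (congrArg Prod.fst h)
  by_contra huv
  obtain ⟨j, hj⟩ := hytrans (of x • v) v
  have hs : (of y ^ j * of x) • v = v := by rw [mul_smul, hj]
  set s := of y ^ j * of x with hsdef
  set w := (of y ^ M) ^ j * of x ^ M with hw
  have hyj : ∀ i : ℕ, ((of y ^ M) ^ i) • v = v := by
    intro i
    rw [← pow_mul, mul_comm, pow_mul]
    exact hfix _ _
  have hwv : w • v = v := by rw [hw, mul_smul, hfix, hyj]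
  have hsM : s ^ M • v = v := hfix _ _
  have hdeg : deg (s ^ M * w⁻¹) = 1 := by
    rw [map_mul, map_inv, map_pow, hsdef, hw]
    simp only [map_mul, map_pow]
    rw [mul_pow, ← pow_mul, ← pow_mul, mul_comm j M, mul_inv_cancel]
  have hwinv : w⁻¹ • v = v := by rw [inv_smul_eq_iff, hwv]
  have h1 := hZ (s ^ M * w⁻¹) v (by rw [mul_smul, hwinv, hsM]) hdeg
  rw [c_mul, hwinv, c_inv, hwinv, c_pow_fix s v hs, neg_add_eq_zero] at h1
  have h2 := DFunLike.congr_fun h1 (u, x)
  have h3 : c s v (u, x) = 0 := by
    rw [hsdef, c_mul, c_of, Finsupp.add_apply, c_pow_other x y hxy, add_zero,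
      Finsupp.single_apply, if_neg]
    intro h
    exact huv (congrArg Prod.fst h).symm
  have h4 : c w v (u, x) = c (of x ^ M) v (u, x) := by
    rw [hw, c_mul, Finsupp.add_apply, hfix, ← pow_mul, c_pow_other x y hxy, add_zero]
  have h5 := c_pow_ge x M hM0 u
  rw [← hz x v u] at h5
  rw [h4, Finsupp.smul_apply, h3, smul_zero] at h2
  omega

end Q27.RelComm
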