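import Pool.Agent.Q27.RelComm.Zero
import Pool.Agent.Q27.RelComm.FreeFacts

/-! The main theorem. -/

namespace Q27.RelComm

open FreeGroup (of lift)
open scoped commutatorElement Pointwise

universe u

theorem top_of_sup {X : Type u} (R S : Subgroup (FreeGroup X)) [hR : R.Normal] (hsup : R ⊔ S = ⊤)
    (hc : ⁅R, R⁆ ≤ ⁅S, S⁆) (r₁ r₂ : FreeGroup X) (h₁ : r₁ ∈ R) (h₂ : r₂ ∈ R)
    (hne : r₁ * r₂ ≠ r₂ * r₁) : S = ⊤ := by
  classical
  obtain ⟨x, y, hxy⟩ : ∃ x y : X, x ≠ y := by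
    by_contra hcon
    push Not at hcon
    have key : ∀ x : X, ∀ w : FreeGroup X, ∃ n : ℤ, w = of x ^ n := by
      intro x w
      induction w using FreeGroup.induction_on with
      | C1 => exact ⟨0, by simp⟩
      | of z => exact ⟨1, by rw [hcon z x]; simp⟩
      | inv_of z _ => exact ⟨-1, by rw [hcon z x]; simp⟩
      | mul a b ha hb =>
        obtain ⟨m, rfl⟩ := ha
        obtain ⟨n, rfl⟩ := hb
        exact ⟨m + n, by rw [zpow_add]⟩
    by_cases hX : Nonempty X
    · obtain ⟨x⟩ := hX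
      obtain ⟨m, rfl⟩ := key x r₁
      obtain ⟨n, rfl⟩ := key x r₂
      exact hne (by rw [← zpow_add, ← zpow_add, add_comm])
    · have : ∀ w : FreeGroup X, w = 1 := by
        intro w
        induction w using FreeGroup.induction_on with
        | C1 => rfl
        | of z => exact absurd ⟨z⟩ hX
        | inv_of z _ => exact absurd ⟨z⟩ hX
        | mul a b ha hb => rw [ha, hb, one_mul]
      exact hne (by rw [this r₁, this r₂])
  let V := FreeGroup X ⧸ S
  let v₀ : V := ((1 : FreeGroup X) : FreeGroup X ⧸ S)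
  have hstab : ∀ s : FreeGroup X, s • v₀ = v₀ ↔ s ∈ S := by
    intro s
    change ((s * 1 : FreeGroup X) : FreeGroup X ⧸ S) = ((1 : FreeGroup X) : FreeGroup X ⧸ S) ↔ _
    rw [mul_one, QuotientGroup.eq, mul_one, inv_mem_iff]
  have htr0 : ∀ u v : V, ∃ g : FreeGroup X, g • u = v := MulAction.exists_smul_eq (FreeGroup X)
  have htr : ∀ v : V, ∃ r ∈ R, r • v₀ = v := by
    intro v
    obtain ⟨g, hg⟩ := htr0 v₀ v
    have h1 : g ∈ R ⊔ S := by rw [hsup]; trivial
    have h2 : (g : FreeGroup X) ∈ (R : Set (FreeGroup X)) * (S : Set (FreeGroup X)) := by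
      rw [← Subgroup.normal_mul]
      exact h1
    obtain ⟨r, hr, s, hs, rfl⟩ := h2
    refine ⟨r, hr, ?_⟩
    rw [← hg]
    change r • v₀ = (r * s) • v₀
    rw [mul_smul, (hstab s).2 hs]
  let K : Subgroup (FreeGroup X) :=
    { carrier := {k | k • v₀ = v₀ ∧ c k v₀ = 0}
      one_mem' := ⟨one_smul _ _, c_one _⟩
      mul_mem' := by
        rintro a b ⟨ha1, ha2⟩ ⟨hb1, hb2⟩
        refine ⟨by rw [mul_smul, hb1, ha1], ?_⟩
        rw [c_mul, hb1, ha2, hb2, zero_add]
      inv_mem' := by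
        rintro a ⟨ha1, ha2⟩
        have h1 : a⁻¹ • v₀ = v₀ := by rw [inv_smul_eq_iff, ha1]
        refine ⟨h1, ?_⟩
        rw [c_inv, h1, ha2, neg_zero] }
  have hK : ⁅S, S⁆ ≤ K := by
    rw [Subgroup.commutator_le]
    intro a ha b hb
    have ha1 := (hstab a).2 ha
    have hb1 := (hstab b).2 hb
    have ha2 : a⁻¹ • v₀ = v₀ := by rw [inv_smul_eq_iff, ha1]
    have hb2 : b⁻¹ • v₀ = v₀ := by rw [inv_smul_eq_iff, hb1]
    refine ⟨?_, ?_⟩
    · rw [commutatorElement_def, mul_smul, mul_smul, mul_smul, hb2, ha2, hb1, ha1]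
    · rw [commutatorElement_def, c_mul, c_mul, c_mul, hb2, ha2, hb1, c_inv, hb2, c_inv, ha2]
      abel
  have hcomm : ∀ r₁ ∈ R, ∀ r₂ ∈ R, ⁅r₁, r₂⁆ • v₀ = v₀ ∧ c ⁅r₁, r₂⁆ v₀ = 0 := by
    intro a ha b hb
    exact hK (hc (Subgroup.commutator_mem_commutator ha hb))
  have hZ : ∀ (g : FreeGroup X) (v : V), g • v = v → deg g = 1 → c g v = 0 :=
    zero_all R v₀ htr hcomm
  have ht : ⁅r₁, r₂⁆ ≠ 1 := by
    rw [ne_eq, commutatorElement_eq_one_iff_mul_comm]
    exact hne
  have htriv : ∀ v : V, ⁅r₁, r₂⁆ • v = v := fun v =>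
    (comm_all R v₀ htr hcomm r₁ h₁ r₂ h₂ v).1
  have hone := collapse hZ htr0 _ ht htriv x y hxy
  rw [eq_top_iff]
  intro g _
  rw [← hstab]
  exact hone _ _

theorem main {F : Type u} [Group F] [IsFreeGroup F] (hF : ∃ a b : F, a * b ≠ b * a)
    (R S : Subgroup F) (hR : R.Normal) (hRS : ⁅R, R⁆ ≤ ⁅S, S⁆) : R ≤ S := by
  classical
  by_cases hbot : R = ⊥
  · rw [hbot]
    exact bot_le
  -- `R` is not commutative
  have hRnc : ∃ r₁ ∈ R, ∃ r₂ ∈ R, r₁ * r₂ ≠ r₂ * r₁ := by
    let e := IsFreeGroup.toFreeGroup F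
    have hX : ∃ x y : IsFreeGroup.Generators F, x ≠ y := by
      by_contra hcon
      push Not at hcon
      obtain ⟨a, b, hab⟩ := hF
      apply hab
      apply e.injective
      rw [map_mul, map_mul]
      have key : ∀ x : IsFreeGroup.Generators F, ∀ w : FreeGroup (IsFreeGroup.Generators F),
          ∃ n : ℤ, w = of x ^ n := by
        intro x w
        induction w using FreeGroup.induction_on with
        | C1 => exact ⟨0, by simp⟩
        | of z => exact ⟨1, by rw [hcon z x]; simp⟩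
        | inv_of z _ => exact ⟨-1, by rw [hcon z x]; simp⟩
        | mul a b ha hb =>
          obtain ⟨m, rfl⟩ := ha
          obtain ⟨n, rfl⟩ := hb
          exact ⟨m + n, by rw [zpow_add]⟩
      by_cases hX : Nonempty (IsFreeGroup.Generators F)
      · obtain ⟨x⟩ := hX
        obtain ⟨m, hm⟩ := key x (e a)
        obtain ⟨n, hn⟩ := key x (e b)
        rw [hm, hn, ← zpow_add, ← zpow_add, add_comm]
      · have : ∀ w : FreeGroup (IsFreeGroup.Generators F), w = 1 := by
          intro w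
          induction w using FreeGroup.induction_on with
          | C1 => rfl
          | of z => exact absurd ⟨z⟩ hX
          | inv_of z _ => exact absurd ⟨z⟩ hX
          | mul a b ha hb => rw [ha, hb, one_mul]
        rw [this (e a), this (e b)]
    obtain ⟨x, y, hxy⟩ := hX
    have : (R.map e.toMonoidHom).Normal := hR.map e.toMonoidHom e.surjective
    have hne : R.map e.toMonoidHom ≠ ⊥ := by
      intro h
      apply hbot
      rw [Subgroup.eq_bot_iff_forall]
      intro r hr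
      have h1 : e r ∈ R.map e.toMonoidHom := ⟨r, hr, rfl⟩
      rw [h, Subgroup.mem_bot, MulEquiv.map_eq_one_iff] at h1
      exact h1
    obtain ⟨_, ⟨r₁, h₁, rfl⟩, _, ⟨r₂, h₂, rfl⟩, h⟩ :=
      Q27.FreeFacts.normal_noncomm hxy (R.map e.toMonoidHom) hne
    refine ⟨r₁, h₁, r₂, h₂, fun h' => h ?_⟩
    change e r₁ * e r₂ = e r₂ * e r₁
    rw [← map_mul, h', map_mul]
  obtain ⟨r₁, h₁, r₂, h₂, hne⟩ := hRnc
  -- pass to the subgroup generated by `R` and `S`
  let H : Subgroup F := R ⊔ S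
  have hRH : R ≤ H := le_sup_left
  have hSH : S ≤ H := le_sup_right
  let e := IsFreeGroup.toFreeGroup H
  let R' : Subgroup (FreeGroup (IsFreeGroup.Generators H)) := (R.subgroupOf H).map e.toMonoidHom
  let S' : Subgroup (FreeGroup (IsFreeGroup.Generators H)) := (S.subgroupOf H).map e.toMonoidHom
  have : (R.subgroupOf H).Normal := hR.subgroupOf H
  have hR' : R'.Normal := Subgroup.Normal.map inferInstance e.toMonoidHom e.surjective
  have hsup : R' ⊔ S' = ⊤ := by
    have h1 : R.subgroupOf H ⊔ S.subgroupOf H = ⊤ := by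
      rw [← Subgroup.subgroupOf_sup hRH hSH, Subgroup.subgroupOf_self]
    change (R.subgroupOf H).map e.toMonoidHom ⊔ (S.subgroupOf H).map e.toMonoidHom = ⊤
    rw [← Subgroup.map_sup, h1, ← MonoidHom.range_eq_map, MonoidHom.range_eq_top]
    exact e.surjective
  have hcomm : ⁅R', R'⁆ ≤ ⁅S', S'⁆ := by
    have h1 : ⁅R.subgroupOf H, R.subgroupOf H⁆ ≤ ⁅S.subgroupOf H, S.subgroupOf H⁆ := by
      have h2 : (⁅R.subgroupOf H, R.subgroupOf H⁆).map H.subtype ≤
          (⁅S.subgroupOf H, S.subgroupOf H⁆).map H.subtype := by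
        rw [Subgroup.map_commutator, Subgroup.map_commutator,
          Subgroup.map_subgroupOf_eq_of_le hRH, Subgroup.map_subgroupOf_eq_of_le hSH]
        exact hRS
      exact (Subgroup.map_le_map_iff_of_injective H.subtype_injective).1 h2
    change ⁅(R.subgroupOf H).map e.toMonoidHom, (R.subgroupOf H).map e.toMonoidHom⁆ ≤
      ⁅(S.subgroupOf H).map e.toMonoidHom, (S.subgroupOf H).map e.toMonoidHom⁆
    rw [← Subgroup.map_commutator, ← Subgroup.map_commutator]
    exact Subgroup.map_mono h1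
  have htop : S' = ⊤ := by
    refine top_of_sup R' S' hsup hcomm (e ⟨r₁, hRH h₁⟩) (e ⟨r₂, hRH h₂⟩)
      ⟨⟨r₁, hRH h₁⟩, h₁, rfl⟩ ⟨⟨r₂, hRH h₂⟩, h₂, rfl⟩ ?_
    rw [← map_mul, ← map_mul]
    intro h
    apply hne
    have := congrArg Subtype.val (e.injective h)
    exact this
  intro r hr
  have h1 : e ⟨r, hRH hr⟩ ∈ S' := by rw [htop]; trivial
  obtain ⟨⟨s, hs⟩, hsS, h2⟩ := h1
  have h3 := e.injective h2
  have h4 : s = r := congrArg Subtype.val h3
  rw [← h4]
  exact hsS

end Q27.RelComm
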