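import Pool.Agent.Q27.RelComm.Collapse

/-! Closed paths of degree zero have zero chain. -/

namespace Q27.RelComm

open FreeGroup (of lift)
open scoped commutatorElement

variable {X : Type*} {V : Type*} [MulAction (FreeGroup X) V]

section

variable (R : Subgroup (FreeGroup X)) [hR : R.Normal] (v₀ : V)
  (htr : ∀ v : V, ∃ r ∈ R, r • v₀ = v)
  (hcomm : ∀ r₁ ∈ R, ∀ r₂ ∈ R, ⁅r₁, r₂⁆ • v₀ = v₀ ∧ c ⁅r₁, r₂⁆ v₀ = 0)

include htr hcomm hR

theorem comm_all (r₁ : FreeGroup X) (h₁ : r₁ ∈ R) (r₂ : FreeGroup X) (h₂ : r₂ ∈ R) (v : V) :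
    ⁅r₁, r₂⁆ • v = v ∧ c ⁅r₁, r₂⁆ v = 0 := by
  obtain ⟨ρ, hρ, rfl⟩ := htr v
  have h3 := hcomm (ρ⁻¹ * r₁ * ρ) (by simpa using hR.conj_mem r₁ h₁ ρ⁻¹) (ρ⁻¹ * r₂ * ρ)
    (by simpa using hR.conj_mem r₂ h₂ ρ⁻¹)
  have h4 : ρ * ⁅ρ⁻¹ * r₁ * ρ, ρ⁻¹ * r₂ * ρ⁆ = ⁅r₁, r₂⁆ * ρ := by
    simp only [commutatorElement_def]
    group
  constructor
  · rw [← mul_smul, ← h4, mul_smul, h3.1]
  · have h5 : c (ρ * ⁅ρ⁻¹ * r₁ * ρ, ρ⁻¹ * r₂ * ρ⁆) v₀ = c (⁅r₁, r₂⁆ * ρ) v₀ := by rw [h4]
    rw [c_mul, c_mul, h3.1, h3.2, zero_add] at h5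
    exact (left_eq_add.1 h5)

theorem fix_all (t : FreeGroup X) (ht : t ∈ R) (ht0 : t • v₀ = v₀) (v : V) : t • v = v := by
  obtain ⟨ρ, hρ, rfl⟩ := htr v
  have h1 : t * ρ = ⁅t, ρ⁆ * (ρ * t) := by
    simp only [commutatorElement_def]
    group
  rw [← mul_smul, h1, mul_smul, mul_smul, ht0]
  exact (comm_all R v₀ htr hcomm t ht ρ hρ _).1

theorem chain_all (t : FreeGroup X) (ht : t ∈ R) (ht0 : t • v₀ = v₀) (v : V) :
    c t v = c t v₀ := by
  obtain ⟨ρ, hρ, rfl⟩ := htr v
  have h1 : t * ρ = ⁅t, ρ⁆ * (ρ * t) := by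
    simp only [commutatorElement_def]
    group
  have h2 : c (t * ρ) v₀ = c (⁅t, ρ⁆ * (ρ * t)) v₀ := by rw [← h1]
  rw [c_mul, c_mul, c_mul, (comm_all R v₀ htr hcomm t ht ρ hρ _).2, add_zero, ht0] at h2
  rw [add_comm] at h2
  exact add_right_cancel h2

theorem zero_infinite [Infinite V] (g : FreeGroup X) (v : V) (hg : g • v = v) (hd : deg g = 1) :
    c g v = 0 := by
  classical
  have hT0 : ∀ t ∈ R, t • v₀ = v₀ → c t v₀ = 0 := by
    intro t ht ht0
    by_contra hne
    obtain ⟨⟨u, x⟩, hux⟩ := Finsupp.ne_iff.1 hne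
    have h1 := finite_starts t u x
    have h2 : {v : V | c t v (u, x) ≠ 0} = Set.univ := by
      rw [Set.eq_univ_iff_forall]
      intro w
      rw [Set.mem_ofPred_eq, chain_all R v₀ htr hcomm t ht ht0 w]
      exact hux
    rw [h2] at h1
    exact Set.infinite_univ h1
  choose ρ hρ hρv using htr
  set h : V → ((V × X) →₀ ℤ) := fun w => c (ρ w) v₀ with hdef
  have hh : ∀ r ∈ R, c r v₀ = h (r • v₀) := by
    intro r hr
    have h1 : ((ρ (r • v₀))⁻¹ * r) • v₀ = v₀ := by
      rw [mul_smul, inv_smul_eq_iff, hρv]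
    have h2 := hT0 _ (mul_mem (inv_mem (hρ (r • v₀))) hr) h1
    have h3 : r = ρ (r • v₀) * ((ρ (r • v₀))⁻¹ * r) := by group
    have h4 : c r v₀ = c (ρ (r • v₀) * ((ρ (r • v₀))⁻¹ * r)) v₀ := by rw [← h3]
    rw [h4, c_mul, h1, h2, zero_add]
  have hh2 : ∀ r ∈ R, ∀ u : V, c r u = h (r • u) - h u := by
    intro r hr u
    have h1 := hh (r * ρ u) (mul_mem hr (hρ u))
    rw [c_mul, hρv, mul_smul, hρv] at h1
    rw [← h1]
    simp [hdef]
  have hI : ∀ (g : FreeGroup X) (v : V), c g v + h v - h (g • v) = c g v₀ - h (g • v₀) := by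
    intro g v
    have h1 : g * ρ v = (g * ρ v * g⁻¹) * g := by group
    have h2 : c (g * ρ v) v₀ = c ((g * ρ v * g⁻¹) * g) v₀ := by rw [← h1]
    rw [c_mul, c_mul, hρv, hh2 _ (hR.conj_mem _ (hρ v) g), ← mul_smul] at h2
    have h3 : (g * ρ v * g⁻¹ * g) • v₀ = g • v := by
      rw [← h1, mul_smul, hρv]
    rw [h3] at h2
    have h4 : h v = c (ρ v) v₀ := rfl
    rw [h4, add_comm (c g v), h2]
    abel
  let φ : FreeGroup X →* Multiplicative ((V × X) →₀ ℤ) :=
    { toFun := fun g => Multiplicative.ofAdd (c g v₀ - h (g • v₀))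
      map_one' := by
        have := hh 1 (one_mem R)
        rw [c_one] at this
        rw [c_one, ← this, sub_zero]
        rfl
      map_mul' := by
        intro a b
        rw [← ofAdd_add]
        congr 1
        have h1 := hI a (b • v₀)
        rw [c_mul, mul_smul, ← h1]
        abel }
  have h1 : φ g = 1 := eq_one_of_deg φ g hd
  have h2 : c g v₀ - h (g • v₀) = 0 := h1
  have h3 := hI g v
  rw [h2, hg] at h3
  simpa using h3

theorem zero_finite [Finite V] (g : FreeGroup X) (v : V) (hg : g • v = v) (hd : deg g = 1) :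
    c g v = 0 := by
  classical
  let _ : Fintype V := Fintype.ofFinite V
  have hch := chain_all R v₀ htr hcomm
  let τ : FreeGroup X →* Multiplicative ((V × X) →₀ ℤ) :=
    { toFun := fun g => Multiplicative.ofAdd (∑ w : V, c g w)
      map_one' := by simp
      map_mul' := by
        intro a b
        rw [← ofAdd_add]
        congr 1
        have h1 : ∑ w : V, c a (b • w) = ∑ w : V, c a w :=
          Equiv.sum_comp (MulAction.toPerm b) (fun w => c a w)
        simp only [c_mul]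
        rw [Finset.sum_add_distrib, h1, add_comm] }
  obtain ⟨L, hL⟩ := exists_factor τ
  have hL' : ∀ g, ∑ w : V, c g w = L (Multiplicative.toAdd (deg g)) := hL
  choose ρ hρ hρv using htr
  -- the case of the base point
  have base : ∀ g : FreeGroup X, g • v₀ = v₀ → deg g = 1 → c g v₀ = 0 := by
    intro g hg hd
    have hginv : g⁻¹ • v₀ = v₀ := by rw [inv_smul_eq_iff, hg]
    let t : V → FreeGroup X := fun w => (ρ (g • w))⁻¹ * (g * ρ w * g⁻¹)
    have htR : ∀ w, t w ∈ R := fun w => mul_mem (inv_mem (hρ _)) (hR.conj_mem _ (hρ w) g)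
    have ht0 : ∀ w, t w • v₀ = v₀ := by
      intro w
      simp only [t, mul_smul]
      rw [hginv, hρv, inv_smul_eq_iff, hρv]
    have h1 : ∀ w, c g w = c g v₀ + c (t w) v₀ + (c (ρ (g • w)) v₀ - c (ρ w) v₀) := by
      intro w
      have h2 : g * ρ w = (ρ (g • w) * t w) * g := by
        simp only [t]
        group
      have h3 : c (g * ρ w) v₀ = c ((ρ (g • w) * t w) * g) v₀ := by rw [← h2]
      rw [c_mul, c_mul, c_mul, hg, ht0, hρv] at h3
      have h4 : c g w = c (ρ w) v₀ + c g w - c (ρ w) v₀ := by abel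
      rw [h4, h3]
      abel
    have h2 : ∑ w : V, c g w = Fintype.card V • c g v₀ + ∑ w : V, c (t w) v₀ := by
      have h3 : ∑ w : V, c (ρ (g • w)) v₀ = ∑ w : V, c (ρ w) v₀ :=
        Equiv.sum_comp (MulAction.toPerm g) (fun w => c (ρ w) v₀)
      calc ∑ w : V, c g w = ∑ w : V, (c g v₀ + c (t w) v₀ + (c (ρ (g • w)) v₀ - c (ρ w) v₀)) :=
            Finset.sum_congr rfl fun w _ => h1 w
        _ = _ := by
            rw [Finset.sum_add_distrib, Finset.sum_sub_distrib, h3, sub_self, add_zero,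
              Finset.sum_add_distrib, Finset.sum_const, Finset.card_univ]
    rw [hL', hd, toAdd_one, map_zero] at h2
    have h3 : ∑ w : V, Fintype.card V • c (t w) v₀ = 0 := by
      have h4 : ∀ w, Fintype.card V • c (t w) v₀ =
          L (Multiplicative.toAdd (deg (ρ w)) - Multiplicative.toAdd (deg (ρ (g • w)))) := by
        intro w
        have h5 : ∑ u : V, c (t w) u = Fintype.card V • c (t w) v₀ := by
          rw [Finset.sum_congr rfl fun u _ => hch (t w) (htR w) (ht0 w) u, Finset.sum_const,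
            Finset.card_univ]
        rw [← h5, hL']
        congr 1
        simp only [t, map_mul, map_inv, toAdd_mul, toAdd_inv]
        abel
      rw [Finset.sum_congr rfl fun w _ => h4 w, ← map_sum, Finset.sum_sub_distrib]
      have h5 : ∑ w : V, Multiplicative.toAdd (deg (ρ (g • w))) =
          ∑ w : V, Multiplicative.toAdd (deg (ρ w)) :=
        Equiv.sum_comp (MulAction.toPerm g) (fun w => Multiplicative.toAdd (deg (ρ w)))
      rw [h5, sub_self, map_zero]
    have h4 : Fintype.card V • (Fintype.card V • c g v₀) = 0 := by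
      have h5 : Fintype.card V • (Fintype.card V • c g v₀ + ∑ w : V, c (t w) v₀) = 0 := by
        rw [← h2, smul_zero]
      rw [smul_add, Finset.smul_sum, h3, add_zero] at h5
      exact h5
    have hN : Fintype.card V ≠ 0 := by
      have : 0 < Fintype.card V := Fintype.card_pos_iff.2 ⟨v₀⟩
      omega
    ext p
    have h5 := DFunLike.congr_fun h4 p
    simp only [Finsupp.smul_apply, Finsupp.coe_zero, Pi.zero_apply, smul_eq_zero, hN,
      false_or] at h5 ⊢
    exact h5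
  have h1 : (ρ v)⁻¹ • v = v₀ := by rw [inv_smul_eq_iff, hρv]
  have h2 : ((ρ v)⁻¹ * g * ρ v) • v₀ = v₀ := by
    rw [mul_smul, mul_smul, hρv, hg, h1]
  have h3 : deg ((ρ v)⁻¹ * g * ρ v) = 1 := by
    rw [map_mul, map_mul, hd, mul_one, map_inv, inv_mul_cancel]
  have h4 := base _ h2 h3
  have h5 : c (ρ v * ((ρ v)⁻¹ * g * ρ v)) v₀ = c (g * ρ v) v₀ := by
    congr 1
    group
  rw [c_mul (ρ v) ((ρ v)⁻¹ * g * ρ v), h4, h2, zero_add, c_mul, hρv] at h5
  exact left_eq_add.1 h5

theorem zero_all (g : FreeGroup X) (v : V) (hg : g • v = v) (hd : deg g = 1) : c g v = 0 := by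
  rcases finite_or_infinite V with h | h
  · exact zero_finite R v₀ htr hcomm g v hg hd
  · exact zero_infinite R v₀ htr hcomm g v hg hd

end

end Q27.RelComm
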